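import Pool.Agent.H255R3.SN.Main

/-!
# Testing an upper bound on the spectral norm of a 3-tensor is `∀ℝ`-complete

Sketch of the hardness proof. For bilinear forms `B₁, …, B_r` the tensor `T(z, x, y) = ∑ z_k B_k(x, y)`
has `‖T‖² = max ∑ B_k(x, y)²` over unit vectors `x, y`. From a system of constraints `8 x = 1`,
`x + y = z`, `x y = z` (a bounded normal form of the existential theory of the reals, in which we
include the equations of a long chain of powers of `1/8`, ending in a coordinate `μ`) we compute
bilinear forms `F` that are homogenized bilinear versions of the constraints and of equations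
`2 u² + s² = 1` bounding the coordinates, and then bilinear forms `B_k` with integer coefficients
and integers `g, σ` with
`∑ B_k(x, y)² = σ² |x|² |y|² + (x_μ y_0)² - g² |x ∧ y|² - 2 ∑ F(x, y)²`.
If the system has a solution `x`, then `x = y` gives `∑ B_k² > σ² |x|² |y|²`.  Conversely such an
inequality says that `x` and `y` are almost parallel and that all constraints are almost
satisfied, with an error that is small relative to the last term of the chain; hence that
term, and the error, is doubly exponentially small, and a gap theorem for systems of polynomial
equations (`Pool.Agent.NPC.ER.holds_of_approx`) shows that the system has a solution.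
-/

set_option autoImplicit false

namespace Pool.Agent.Results.MP_50cd9e_lc.SpectralNormComplete

open Pool.Agent.NPC Pool.Agent.NPC.ER Pool.Agent.NPC.ER.H255SN

/-- SPECTRAL-NORM-BOUND is `∀ℝ`-complete and SPECTRAL-NORM-EXCEED is `∃ℝ`-complete, under
polynomial-time many-one reductions. -/
theorem result : ARComplete (lang SpectralNormBound) ∧ ERComplete (lang SpectralNormExceed) :=
  ⟨⟨bound_mem, bound_hard⟩, ⟨exceeds_mem, exceeds_hard⟩⟩

end Pool.Agent.Results.MP_50cd9e_lc.SpectralNormComplete
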